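import Pool.Agent.MP_32a90a_pr.D.AZ.Conc
import Pool.Agent.MP_32a90a_pr.D.AZ.Max
import Pool.Agent.MP_32a90a_pr.D.AZ.Mono
import Pool.Agent.MP_32a90a_pr.D.AZ.Gauge
import Pool.Agent.MP_32a90a_pr.D.AZ.Pl
import Pool.Agent.MP_32a90a_pr.D.AZ.Ex
import Pool.Agent.MP_32a90a_pr.D.AZ.Match
import Pool.Agent.MP_32a90a_pr.D.AZ.Form
import Pool.Agent.MP_32a90a_pr.D.AZ.Hyb
import Pool.Agent.MP_32a90a_pr.D.AZ.Hoef
import Pool.Agent.MP_32a90a_pr.D.AZ.Chain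
import Pool.Agent.MP_32a90a_pr.D.AZ.Tow
import Pool.Agent.MP_32a90a_pr.D.AZ.Joint
import Pool.Agent.MP_32a90a_pr.D.AZ.SplitE
import Pool.Agent.MP_32a90a_pr.D.AZ.Prod
import Pool.Agent.MP_32a90a_pr.D.AZ.Int
import Pool.Agent.MP_32a90a_pr.D.AZ.Split
import Pool.Agent.MP_32a90a_pr.D.AZ.Lay
import Pool.Agent.MP_32a90a_pr.D.AZ.RigD
import Pool.Agent.MP_32a90a_pr.D.AZ.RigG
import Pool.Agent.MP_32a90a_pr.D.AZ.RigU
import Pool.Agent.MP_32a90a_pr.D.AZ.B1w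
import Pool.Agent.MP_32a90a_pr.D.AZ.Ker
import Pool.Agent.MP_32a90a_pr.D.AZ.Step2
import Pool.Agent.MP_32a90a_pr.D.AZ.Two
import Pool.Agent.MP_32a90a_pr.D.AZ.Win
import Pool.Agent.MP_32a90a_pr.D.AZ.Merge
import Pool.Agent.MP_32a90a_pr.D.AZ.Blk2
import Pool.Agent.MP_32a90a_pr.D.AZ.Glue
import Pool.Agent.MP_32a90a_pr.D.AZ.Num
import Pool.Agent.MP_32a90a_pr.D.AZ.Trans
import Pool.Agent.MP_32a90a_pr.D.AZ.ZZ
import Pool.Agent.MP_32a90a_pr.D.AZ.Fin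
import Pool.Agent.MP_32a90a_pr.D.G.All

set_option autoImplicit false

namespace Pool.Agent.MP_32a90a_pr.D

open AZ

theorem stConc : StConc := zConc

theorem stB1w : StB1w := zB1w zLay (zRigU zRigD zRigG zRigP) GAll.typ

theorem AZ.int_all : ZInt :=
  have ex := zEx zPl
  have fe := zFeas ex
  have cn := zCnt (zLip zPl ex) zMatch
  have po := zPool zHoef
  zInt zProd (zSplitE fe cn zHoef po zCmp) (zChain (zHyb zPl ex fe zMax zForm) po)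
    (zJoint fe cn zHoef po zCmp zTow (zTypJ zConc))

theorem stFinal : StFinal :=
  have a6 := zA6 (zMono (zStep0 zMax)) zGauge
  zFin (zB1m stB1w) zKer zStep2 zTwo zGain zNum
    (zBlk1 (zWin zConc) a6 (zMerge int_all zSplit)) (zBlk2 a6)
    (zZ (zGlue int_all zSplit) zSeq) zTrans

end Pool.Agent.MP_32a90a_pr.D
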